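import Pool.Agent.H17.S4b

set_option autoImplicit false

namespace Pool.Agent.Results.MP_c5dce0_nt.Formula

/-- `S k m n`: the coefficient of `x ^ n` in `(1 - x) ^ (-m) ∏ (1 - x ^ (k ^ i)) ^ (-m (k - 1))`.
The factor `1 / (1 - x ^ (k ^ i))` is the series with coefficient `1` at the multiples of `k ^ i`;
the factors with `i > n` do not affect the coefficient. -/
noncomputable def S (k m n : ℕ) : ℤ :=
  PowerSeries.coeff n ((PowerSeries.mk (fun _ : ℕ => (1 : ℤ))) ^ m * (∏ i ∈ Finset.range (n + 1),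
    PowerSeries.mk (fun j : ℕ => if k ^ i ∣ j then (1 : ℤ) else 0)) ^ (m * (k - 1)))

theorem result : ∀ s n : ℕ, 2 ≤ s → 1 ≤ n →
    S 4 (2 ^ s) n ≠ 0 ∧
    padicValInt 2 (S 4 (2 ^ s) n) = s + 1 + padicValNat 2 (2 * n) % 2 := by
  intro s n hs hn
  obtain ⟨r, rfl⟩ : ∃ r, s = r + 2 := ⟨s - 2, by omega⟩
  have h4 : 2 ^ (r + 2) = 4 * 2 ^ r := by ring
  have h6 : 2 ^ (r + 2) % 8 ≠ 6 := by omega
  have h := Pool.Agent.H17.S4.main (2 ^ (r + 2)) n (by positivity) h6 (by omega)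
  have e : Pool.Agent.H17.S4.f (2 ^ (r + 2)) (Pool.Agent.H17.S4.v n) =
      r + 2 + 1 + padicValNat 2 (2 * n) % 2 := by
    unfold Pool.Agent.H17.S4.f
    rw [if_neg (by omega), if_pos (by omega), Pool.Agent.H17.S4.v, padicValNat.prime_pow]
    have := Pool.Agent.H17.S4.v_two_mul (n := n) (by omega)
    simp only [Pool.Agent.H17.S4.v] at this ⊢
    rw [this]
  rw [e] at h
  refine ⟨?_, h.padic⟩
  obtain ⟨y, hy⟩ := h
  change Pool.Agent.H17.S4.S _ _ ≠ 0
  rw [hy]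
  exact mul_ne_zero (by positivity) (by omega)

end Pool.Agent.Results.MP_c5dce0_nt.Formula
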